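import Pool.Agent.Helper92.SIW.WellZero
import Pool.Agent.Helper92.SIW.WellExists

/-!
# A local obstruction to polynomial superintegrability, and Q1 of MP_75a63e_an

Natural systems `H = ½ |p|² + U(x)` on `T*W`, where `W ⊆ S²` is a connected open set: the metric,
the potential and the integrals are defined over `W` only. So `W` with the metric is an arbitrary
connected surface which can be embedded in the sphere (the plane, a disc, an annulus, `S²`, ...).

* `Well W U M D`: `D` is a connected open set whose closure is contained in `W`, `U < M` on `D`, and
  the boundary of `D` is nonempty and consists of local maxima of `U` with the value `M`.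
* If the potential has such a well then there are no three integrals over `W`, polynomial in the
  momenta, whose differentials are linearly independent at at least one point of `T*W`.
* On `W = S²` every nonconstant potential has such a well, so no natural system on `S²` with
  nonconstant potential is superintegrable by integrals polynomial in the momenta.
-/

open Set Manifold
open scoped ContDiff
open Pool.Agent.Helper197.S2Defs (S2 RMetric Superintegrable)

namespace Pool.Agent.Results.MP_75a63e_an.PotentialWell

open Pool.Agent.Helper92.SIW

/-- First part: if `W ⊆ S²` is open and connected, `g` is a smooth Riemannian metric on `W`, `U` is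
smooth on `W` and has a potential well in `W` whose rim consists of local maxima, then the natural
system `(g, U)` on `T*W` does not have three integrals over `W` which are polynomial in the momenta
and functionally independent at some point. Second part: every nonconstant continuous function on
`S²` has such a well. Third part: no natural system on `S²` with smooth nonconstant potential is
superintegrable by integrals polynomial in the momenta. -/
theorem result :
    (∀ W : Set S2, IsOpen W → IsPreconnected W → ∀ (g : MetricOn W) (U : S2 → ℝ),
      ContMDiffOn (𝓡 2) 𝓘(ℝ, ℝ) ∞ U W → (∃ (M : ℝ) (D : Set S2), Well W U M D) →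
        ¬ SuperintegrableOn W g U) ∧
    (∀ U : S2 → ℝ, Continuous U → (∃ x y, U x ≠ U y) →
      ∃ (M : ℝ) (D : Set S2), Well univ U M D) ∧
    (¬ ∃ (g : RMetric) (U : S2 → ℝ), ContMDiff (𝓡 2) 𝓘(ℝ, ℝ) ∞ U ∧
      (∃ x y : S2, U x ≠ U y) ∧ Superintegrable g U) :=
  ⟨fun _ hW hWc g _ hU ⟨_, _, hD⟩ => not_superintegrableOn hW hWc g hU hD,
    fun _ hU hne => exists_well hU hne,
    Pool.Agent.Helper197.S2Bridge.main⟩

end Pool.Agent.Results.MP_75a63e_an.PotentialWell
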